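import Pool.Agent.H71.VM.CVFinV
import Pool.Agent.H48.WM.LateH
import Pool.Agent.H48.VS.Two
import Pool.Agent.H15.OB.ItpV

/-!
# Global bounds without symmetry: gases of large Knudsen number with an arbitrary profile, neighbourhoods of large oscillating data
and of homogeneous data

Non-cutoff Boltzmann equation, soft and hard potentials: `2s < 1`, `0 < γ + 2s ≤ 2`. EVERY classical solution with an initial
value of the three families below satisfies the four hydrodynamic bounds with constants that do not depend on its life time. No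
comparison solution, no symmetry, no closeness to equilibrium.
-/

set_option autoImplicit false

open MeasureTheory Set Pool.Agent.H25.Kin

namespace Pool.Agent.Results.MP_c15324_an.DiluteGas

/-- profiles: nonnegative, 1-periodic in `x`, no vacuum, rapid decay in `v`, smooth in `(x, v)` with bounded derivatives -/
def Profile {d : ℕ} (h : Vec d → Vec d → ℝ) : Prop :=
  (∀ x v, 0 ≤ h x v) ∧ (∀ x v i, h (x + Pi.single i 1) v = h x v) ∧ (∀ x, 0 < ∫ v, h x v) ∧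
  (∀ N : ℕ, ∃ C : ℝ, ∀ x v, (1 + ‖v‖) ^ N * h x v ≤ C) ∧
  (∀ n : ℕ, ContDiff ℝ n (fun p : Vec d × Vec d => h p.1 p.2)) ∧
  ∀ m : ℕ, ∃ C : ℝ, ∀ x v,
    ‖iteratedFDeriv ℝ m (fun p : Vec d × Vec d => h p.1 p.2) (x, v)‖ ≤ C

/-- two-scale profiles `h(x, y, v)`: nonnegative, 1-periodic in `x` and in `y`, no vacuum, rapid decay in `v`, smooth with bounded
derivatives; the average over the fast variable `y` does not depend on `x` -/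
def TwoScale {d : ℕ} (h : Vec d → Vec d → Vec d → ℝ) : Prop :=
  (∀ x y v, 0 ≤ h x y v) ∧
  (∀ x y v i, h (x + Pi.single i 1) y v = h x y v ∧ h x (y + Pi.single i 1) v = h x y v) ∧
  (∀ x y, 0 < ∫ v, h x y v) ∧
  (∀ N : ℕ, ∃ C : ℝ, ∀ x y v, (1 + ‖v‖) ^ N * h x y v ≤ C) ∧
  (∀ n : ℕ, ContDiff ℝ n (fun p : Vec d × Vec d × Vec d => h p.1 p.2.1 p.2.2)) ∧
  (∀ m : ℕ, ∃ C : ℝ, ∀ x y v,
    ‖iteratedFDeriv ℝ m (fun p : Vec d × Vec d × Vec d => h p.1 p.2.1 p.2.2) (x, y, v)‖ ≤ C) ∧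
  ∀ x x' v, ∫ y in Icc (0 : Vec d) 1, h x y v = ∫ y in Icc (0 : Vec d) 1, h x' y v

/-- homogeneous data: nonnegative, not zero, rapid decay, Hoelder continuous of some order in `(2 s, 1]` with a constant which
grows at most polynomially -/
def Homog {d : ℕ} (s : ℝ) (F : Vec d → ℝ) : Prop :=
  (∀ v, 0 ≤ F v) ∧ (∀ N : ℕ, ∃ C, ∀ v, (1 + ‖v‖) ^ N * F v ≤ C) ∧ (0 < ∫ v, F v) ∧
  ∃ α : ℝ, 2 * s < α ∧ α ≤ 1 ∧ ∃ (A : ℝ) (k : ℕ), ∀ v w : Vec d,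
    |F v - F w| ≤ A * (1 + ‖v‖ + ‖w‖) ^ k * ‖v - w‖ ^ α

theorem result {d : ℕ} (hd : 2 ≤ d) {s γ : ℝ} (hs : 0 < s) (hs1 : 2 * s < 1) (h1 : 0 < γ + 2 * s)
    (h2 : γ + 2 * s ≤ 2) {b : ℝ → ℝ} (hb : IsKernel d s b) :
    -- (1) large Knudsen number: amplitude `c`, velocities of size `l`, `c l^(d+γ-1)` small
    (∀ h : Vec d → Vec d → ℝ, Profile h → ∀ B : ℕ → ℝ,
      ∃ D > 0, ∃ ε > 0, ∃ U : ℕ → ℝ, ∀ c > 0, ∀ l > 0, c * l ^ ((d : ℝ) + γ - 1) ≤ D →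
      ∃ m₀ > 0, ∃ M₀ : ℝ,
      ∀ (T : ℝ) (f : ℝ → Vec d → Vec d → ℝ), IsBoltzmannSol γ b T f →
        (∀ (N : ℕ) (x v : Vec d), (1 + ‖v‖ / l) ^ N * f 0 x v ≤ c * B N) →
        (∀ x v, |f 0 x v - c * h x (l⁻¹ • v)| ≤ c * ε) →
        ∀ t ∈ Ico 0 T, ∀ x, HydroBounds m₀ M₀ M₀ M₀ (f t x) ∧
          ∀ (N : ℕ) (v : Vec d), (1 + ‖v‖ / l) ^ N * f t x v ≤ c * U N) ∧
    -- (2) neighbourhoods of large oscillating data `h(x, n x, v)`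
    (∀ h : Vec d → Vec d → Vec d → ℝ, TwoScale h → ∀ B : ℕ → ℝ,
      ∃ (U : ℕ → ℝ) (M₀ : ℝ), ∃ m₁ > 0, ∀ τ > 0, ∃ ε > 0, ∃ n₀ : ℕ, ∀ n ≥ n₀, ∃ m₀ > 0,
      ∀ (T : ℝ) (f : ℝ → Vec d → Vec d → ℝ), IsBoltzmannSol γ b T f →
        (∀ (N : ℕ) (x v : Vec d), (1 + ‖v‖) ^ N * f 0 x v ≤ B N) →
        (∀ x v, |f 0 x v - h x ((n : ℝ) • x) v| ≤ ε) →
        ∀ t ∈ Ico 0 T, ∀ x, HydroBounds m₀ M₀ M₀ M₀ (f t x) ∧
          (∀ (N : ℕ) (v : Vec d), (1 + ‖v‖) ^ N * f t x v ≤ U N) ∧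
          (τ ≤ t → m₁ ≤ ∫ v, f t x v)) ∧
    -- (3) neighbourhoods of homogeneous data
    ∀ F : Vec d → ℝ, Homog s F → ∀ B : ℕ → ℝ,
      ∃ ε > 0, ∃ m₀ > 0, ∃ (M₀ : ℝ) (U : ℕ → ℝ),
      ∀ (T : ℝ) (f : ℝ → Vec d → Vec d → ℝ), IsBoltzmannSol γ b T f →
        (∀ (N : ℕ) (x v : Vec d), (1 + ‖v‖) ^ N * f 0 x v ≤ B N) →
        (∀ x v, |f 0 x v - F v| ≤ ε) →
        ∀ t ∈ Ico 0 T, ∀ x, HydroBounds m₀ M₀ M₀ M₀ (f t x) ∧
          ∀ (N : ℕ) (v : Vec d), (1 + ‖v‖) ^ N * f t x v ≤ U N := by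
  refine ⟨fun h hh B => ?_, fun h hh B => ?_, fun F hF B => ?_⟩
  · obtain ⟨h0, hper, hv, hd0, hc, hbd⟩ := hh
    have hdec := Pool.Agent.H15.OB.prof_decay hc h0 hd0 hbd
    exact Pool.Agent.H48.VS.two_par hd hs h1 hs1 h2 hb ⟨hc, hper, hdec⟩ h0 hv B
  · obtain ⟨h0, hper, hv, hd0, hc, hbd, hav⟩ := hh
    have hdec := Pool.Agent.H15.OB.two_decay hc h0 hd0 hbd
    exact Pool.Agent.H48.WM.w_hom hd hs h1 hs1 h2 hb
      ⟨hc, fun x y v i => (hper x y v i).1, fun x y v i => (hper x y v i).2, hdec⟩ h0 hv hav B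
  · obtain ⟨hn, hdec, hm, α, ha, ha1, A, k, hA⟩ := hF
    obtain ⟨hS, hH⟩ := Pool.Agent.H48.CV.hom_data (by linarith) hn hdec hA
    exact Pool.Agent.H71.VM.hom_plain hd hs h1 hs1 h2 hb hS hm ⟨α, ha, ha1, hH⟩ B

end Pool.Agent.Results.MP_c15324_an.DiluteGas
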