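import Pool.Agent.H48.LV.AllL
import Pool.Agent.H82.LL.TwoL
import Pool.Agent.H15.OB.AppL
import Pool.Agent.H15.OB.DisL
import Pool.Agent.H15.OB.Inv
import Pool.Agent.H15.OB.ItpV

/-!
# Landau equation, all `γ ∈ (-2, 0)`, without symmetry: large Knudsen number, large oscillating data, homogeneous data, finite horizon

(1)-(3): EVERY classical solution with an initial value of the three families below satisfies the four hydrodynamic bounds with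
constants that do not depend on its life time. No comparison solution, no symmetry, no closeness to equilibrium.
(4): bounds on a finite interval `[0,L]`, where `L` depends on these bounds only, imply the hydrodynamic bounds for the whole life, for
the solution and for all solutions near it.
-/

set_option autoImplicit false

open MeasureTheory Set Pool.Agent.H25.Kin

namespace Pool.Agent.Results.MP_c15324_an.LandauGas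

/-- profiles: nonnegative, 1-periodic in `x`, no vacuum, rapid decay in `v`, smooth in `(x, v)` with bounded derivatives -/
def Profile {d : ℕ} (h : Vec d → Vec d → ℝ) : Prop :=
  (∀ x v, 0 ≤ h x v) ∧ (∀ x v i, h (x + Pi.single i 1) v = h x v) ∧ (∀ x, 0 < ∫ v, h x v) ∧
  (∀ N : ℕ, ∃ C : ℝ, ∀ x v, (1 + ‖v‖) ^ N * h x v ≤ C) ∧
  (∀ n : ℕ, ContDiff ℝ n (fun p : Vec d × Vec d => h p.1 p.2)) ∧
  ∀ m : ℕ, ∃ C : ℝ, ∀ x v,
    ‖iteratedFDeriv ℝ m (fun p : Vec d × Vec d => h p.1 p.2) (x, v)‖ ≤ C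

/-- two-scale profiles `h(x, y, v)` with the average `F₀` over the fast variable `y`: nonnegative, 1-periodic in `x` and in `y`,
no vacuum, rapid decay in `v`, smooth with bounded derivatives -/
def TwoScale {d : ℕ} (F₀ : Vec d → Vec d → ℝ) (h : Vec d → Vec d → Vec d → ℝ) : Prop :=
  (∀ x y v, 0 ≤ h x y v) ∧
  (∀ x y v i, h (x + Pi.single i 1) y v = h x y v ∧ h x (y + Pi.single i 1) v = h x y v) ∧
  (∀ x y, 0 < ∫ v, h x y v) ∧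
  (∀ N : ℕ, ∃ C : ℝ, ∀ x y v, (1 + ‖v‖) ^ N * h x y v ≤ C) ∧
  (∀ n : ℕ, ContDiff ℝ n (fun p : Vec d × Vec d × Vec d => h p.1 p.2.1 p.2.2)) ∧
  (∀ m : ℕ, ∃ C : ℝ, ∀ x y v,
    ‖iteratedFDeriv ℝ m (fun p : Vec d × Vec d × Vec d => h p.1 p.2.1 p.2.2) (x, y, v)‖ ≤ C) ∧
  ∀ x v, ∫ y in Icc (0 : Vec d) 1, h x y v = F₀ x v

/-- homogeneous data: nonnegative, not zero, rapid decay, Lipschitz continuous with a constant which decays rapidly -/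
def Homog {d : ℕ} (F : Vec d → ℝ) : Prop :=
  (∀ v, 0 ≤ F v) ∧ (∀ N : ℕ, ∃ C, ∀ v, (1 + ‖v‖) ^ N * F v ≤ C) ∧ (0 < ∫ v, F v) ∧
  ∀ N : ℕ, ∃ C, ∀ v w : Vec d, ‖v - w‖ ≤ 1 → (1 + ‖v‖) ^ N * |F v - F w| ≤ C * ‖v - w‖

/-- `a exp(-k |v-u|²)` has the mass, momentum and energy of `F` -/
def Invariants {d : ℕ} (a k : ℝ) (u : Vec d) (F : Vec d → Vec d → ℝ) : Prop :=
  (∫ x in Icc (0 : Vec d) 1, ∫ v, F x v = ∫ v, a * Real.exp (-(k * nsq (v - u)))) ∧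
  (∀ i, ∫ x in Icc (0 : Vec d) 1, ∫ v, F x v * v i =
    ∫ v, a * Real.exp (-(k * nsq (v - u))) * v i) ∧
  (∫ x in Icc (0 : Vec d) 1, ∫ v, F x v * nsq v =
    ∫ v, a * Real.exp (-(k * nsq (v - u))) * nsq v)

/-- bounds of a solution `g` on `[0,L]`: decay constants `C`, mass density at least `c`, and for the times `t ≥ 1` the modulus of
continuity `r` in `(x, v)` -/
def BoundsOn {d : ℕ} (C : ℕ → ℝ) (c : ℝ) (r : ℝ → ℝ) (L T₁ : ℝ) (g : ℝ → Vec d → Vec d → ℝ) : Prop :=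
  (∀ t ∈ Ico 0 T₁, t ≤ L → ∀ x,
    (∀ (N : ℕ) (v : Vec d), (1 + ‖v‖) ^ N * g t x v ≤ C N) ∧ c ≤ ∫ v, g t x v) ∧
  ∀ t ∈ Ico 1 T₁, t ≤ L → ∀ ε > 0, 0 < r ε ∧
    ∀ x y v w : Vec d, ‖x - y‖ ≤ r ε → ‖v - w‖ ≤ r ε → |g t x v - g t y w| ≤ ε

/-- the second velocity derivatives of `g` decay rapidly, locally uniformly in `t ∈ (0,T₁)`, uniformly up to `t = 0` -/
def Regular {d : ℕ} (T₁ : ℝ) (g : ℝ → Vec d → Vec d → ℝ) : Prop :=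
  ∀ T₀ < T₁, ∀ N : ℕ, ∃ C, ∀ t ∈ Ioc 0 T₀, ∀ (x v : Vec d) (i j : Fin d),
    (1 + ‖v‖) ^ N * |pd i (pd j (g t x)) v| ≤ C

/-- (4) FINITE HORIZON for the Maxwellian `W = a exp(-k |v-u|²)` -/
def Horizon {d : ℕ} (γ a k : ℝ) (u : Vec d) : Prop :=
  ∀ (C : ℕ → ℝ), ∀ c > 0, ∀ (r : ℝ → ℝ), ∀ η > 0,
    -- bounds on `[0,L]` imply bounds on the whole interval of existence, with constants which depend on `C, c, r, η` and `W` only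
    (∃ L : ℝ, 1 ≤ L ∧ ∃ m₀ > 0, ∃ (M₀ : ℝ) (U : ℕ → ℝ),
      ∀ (T₁ : ℝ) (g : ℝ → Vec d → Vec d → ℝ), IsLandauSol γ T₁ g →
        BoundsOn C c r L T₁ g → Invariants a k u (g 0) →
        ∀ t ∈ Ico 0 T₁, ∀ x, HydroBounds m₀ M₀ M₀ M₀ (g t x) ∧
          (∀ (N : ℕ) (v : Vec d), (1 + ‖v‖) ^ N * g t x v ≤ U N) ∧
          (L ≤ t → ∀ v, |g t x v - a * Real.exp (-(k * nsq (v - u)))| ≤ η)) ∧
    -- the same for all solutions `f` with initial values near `g(0)`, and near `h(x, n x, v)`, `n` large, if `h` has the average `g(0)`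
    ∃ L : ℝ, 1 ≤ L ∧ ∀ (T₁ : ℝ) (g : ℝ → Vec d → Vec d → ℝ), L ≤ T₁ →
      IsLandauSol γ T₁ g → BoundsOn C c r L T₁ g → Invariants a k u (g 0) → Regular T₁ g →
      ∀ B : ℕ → ℝ,
      (∃ ε > 0, ∃ m₀ > 0, ∃ (M₀ : ℝ) (U : ℕ → ℝ),
        ∀ (T : ℝ) (f : ℝ → Vec d → Vec d → ℝ), IsLandauSol γ T f →
          (∀ (N : ℕ) (x v : Vec d), (1 + ‖v‖) ^ N * f 0 x v ≤ B N) →
          (∀ x v, |f 0 x v - g 0 x v| ≤ ε) →
          ∀ t ∈ Ico 0 T, ∀ x, HydroBounds m₀ M₀ M₀ M₀ (f t x) ∧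
            (∀ (N : ℕ) (v : Vec d), (1 + ‖v‖) ^ N * f t x v ≤ U N) ∧
            (t < T₁ → ∀ v, |f t x v - g t x v| ≤ η) ∧
            (L ≤ t → ∀ v, |f t x v - a * Real.exp (-(k * nsq (v - u)))| ≤ η)) ∧
      ∀ h : Vec d → Vec d → Vec d → ℝ, TwoScale (g 0) h → ∀ τ > 0,
        ∃ ε > 0, ∃ n₀ : ℕ, ∃ m₁ > 0, ∃ (M₀ : ℝ) (U : ℕ → ℝ), ∀ n ≥ n₀, ∃ m₀ > 0,
        ∀ (T : ℝ) (f : ℝ → Vec d → Vec d → ℝ), IsLandauSol γ T f →
          (∀ (N : ℕ) (x v : Vec d), (1 + ‖v‖) ^ N * f 0 x v ≤ B N) →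
          (∀ x v, |f 0 x v - h x ((n : ℝ) • x) v| ≤ ε) →
          ∀ t ∈ Ico 0 T, ∀ x, HydroBounds m₀ M₀ M₀ M₀ (f t x) ∧
            (∀ (N : ℕ) (v : Vec d), (1 + ‖v‖) ^ N * f t x v ≤ U N) ∧
            (τ ≤ t → m₁ ≤ ∫ v, f t x v) ∧
            (τ ≤ t → t < T₁ → ∀ v, |f t x v - g t x v| ≤ η) ∧
            (τ ≤ t → L ≤ t → ∀ v, |f t x v - a * Real.exp (-(k * nsq (v - u)))| ≤ η)

private theorem bdT_of {d : ℕ} {C : ℕ → ℝ} {c L T₁ : ℝ} {r : ℝ → ℝ} {g : ℝ → Vec d → Vec d → ℝ}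
    (h : BoundsOn C c r L T₁ g) : Pool.Agent.H15.OB.BdT C c r L T₁ g := fun t ht hL =>
  ⟨h.1 t ht hL, fun h1 => h.2 t ⟨h1, ht.2⟩ hL⟩

theorem result {d : ℕ} (hd : 2 ≤ d) {γ : ℝ} (h1 : -2 < γ) (h2 : γ < 0) :
    -- (1) gases of large Knudsen number
    (∀ h : Vec d → Vec d → ℝ, Profile h → ∀ B : ℕ → ℝ,
      ∃ D > 0, ∃ ε > 0, ∃ U : ℕ → ℝ, ∀ c > 0, ∀ l > 0, c * l ^ ((d : ℝ) + γ - 1) ≤ D →
      ∃ m₀ > 0, ∃ M₀ : ℝ, ∀ (T : ℝ) (f : ℝ → Vec d → Vec d → ℝ), IsLandauSol γ T f →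
        (∀ (N : ℕ) (x v : Vec d), (1 + ‖v‖ / l) ^ N * f 0 x v ≤ c * B N) →
        (∀ x v, |f 0 x v - c * h x (l⁻¹ • v)| ≤ c * ε) →
        ∀ t ∈ Ico 0 T, ∀ x, HydroBounds m₀ M₀ M₀ M₀ (f t x) ∧
          ∀ (N : ℕ) (v : Vec d), (1 + ‖v‖ / l) ^ N * f t x v ≤ c * U N) ∧
    -- (2) neighbourhoods of large oscillating data `h(x, n x, v)` with a homogeneous average
    (∀ (F : Vec d → ℝ) (h : Vec d → Vec d → Vec d → ℝ), TwoScale (fun _ => F) h → ∀ B : ℕ → ℝ,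
      ∃ (U : ℕ → ℝ) (M₀ : ℝ), ∃ m₁ > 0, ∀ τ > 0, ∃ ε > 0, ∃ n₀ : ℕ, ∀ n ≥ n₀, ∃ m₀ > 0,
      ∀ (T : ℝ) (f : ℝ → Vec d → Vec d → ℝ), IsLandauSol γ T f →
        (∀ (N : ℕ) (x v : Vec d), (1 + ‖v‖) ^ N * f 0 x v ≤ B N) →
        (∀ x v, |f 0 x v - h x ((n : ℝ) • x) v| ≤ ε) →
        ∀ t ∈ Ico 0 T, ∀ x, HydroBounds m₀ M₀ M₀ M₀ (f t x) ∧
          (∀ (N : ℕ) (v : Vec d), (1 + ‖v‖) ^ N * f t x v ≤ U N) ∧
          (τ ≤ t → m₁ ≤ ∫ v, f t x v)) ∧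
    -- (3) neighbourhoods of homogeneous data
    (∀ F : Vec d → ℝ, Homog F → ∀ B : ℕ → ℝ,
      ∃ ε > 0, ∃ m₀ > 0, ∃ (M₀ : ℝ) (U : ℕ → ℝ),
      ∀ (T : ℝ) (f : ℝ → Vec d → Vec d → ℝ), IsLandauSol γ T f →
        (∀ (N : ℕ) (x v : Vec d), (1 + ‖v‖) ^ N * f 0 x v ≤ B N) →
        (∀ x v, |f 0 x v - F v| ≤ ε) →
        ∀ t ∈ Ico 0 T, ∀ x, HydroBounds m₀ M₀ M₀ M₀ (f t x) ∧
          ∀ (N : ℕ) (v : Vec d), (1 + ‖v‖) ^ N * f t x v ≤ U N) ∧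
    -- (4) finite horizon
    ∀ (a k : ℝ) (u : Vec d), 0 < a → 0 < k → Horizon γ a k u := by
  refine ⟨fun h hh B => ?_, fun F h hh B => ?_, fun F hF B => ?_,
    fun a k u ha hk C c hc r η hη => ⟨?_, ?_⟩⟩
  · obtain ⟨hn, hper, hv, hd0, hcd, hbd⟩ := hh
    have hdec := Pool.Agent.H15.OB.prof_decay hcd hn hd0 hbd
    exact Pool.Agent.H82.LL.two_parL hd h1 h2 ⟨hcd, hper, hdec⟩ hn hv B
  · obtain ⟨hn, hper, hv, hd0, hcd, hbd, hav⟩ := hh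
    have hdec := Pool.Agent.H15.OB.two_decay hcd hn hd0 hbd
    exact Pool.Agent.H48.LV.oscAll hd h1 h2
      ⟨hcd, fun x y v i => (hper x y v i).1, fun x y v i => (hper x y v i).2, hdec⟩ hn hv
      (fun x x' v => (hav x v).trans (hav x' v).symm) B
  · obtain ⟨hn, hdec, hm, hL⟩ := hF
    exact Pool.Agent.H48.LV.homAll hd h1 h2 ⟨hn, hdec, hL, hm⟩ B
  · obtain ⟨L, hL, m₀, hm₀, M₀, U, h⟩ := Pool.Agent.H15.OB.self_L
      (Pool.Agent.H15.OB.disL hd h1 h2.le) hd h1 h2.le ha hk u C hc r hη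
    refine ⟨L, hL, m₀, hm₀, M₀, U, fun T₁ g hg hB hI t ht => ?_⟩
    have hT : 0 < T₁ := ht.1.trans_lt ht.2
    exact h T₁ g hg (Pool.Agent.H15.OB.eqm_of_plain
      (Pool.Agent.H15.AV.sol_slice hg ⟨le_rfl, hT⟩) ha hk hI.1 hI.2.1 hI.2.2) (bdT_of hB) t ht
  · obtain ⟨L₁, hL₁, hn⟩ := Pool.Agent.H15.OB.near_horL
      (Pool.Agent.H15.OB.disL hd h1 h2.le) hd h1 h2.le ha hk u C hc r hη
    obtain ⟨L₂, hL₂, ho⟩ := Pool.Agent.H15.OB.osc_horL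
      (Pool.Agent.H15.OB.disL hd h1 h2.le) hd h1 h2.le ha hk u C hc r hη
    refine ⟨max L₁ L₂, hL₁.trans (le_max_left _ _), fun T₁ g hT hg hB hI hR B => ?_⟩
    have hT' : 0 < T₁ := by linarith [hL₁.trans (le_max_left L₁ L₂)]
    have hE := Pool.Agent.H15.OB.eqm_of_plain
      (Pool.Agent.H15.AV.sol_slice hg ⟨le_rfl, hT'⟩) ha hk hI.1 hI.2.1 hI.2.2
    have hB1 : Pool.Agent.H15.OB.BdT C c r L₁ T₁ g := fun t ht hL =>
      bdT_of hB t ht (hL.trans (le_max_left _ _))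
    have hB2 : Pool.Agent.H15.OB.BdT C c r L₂ T₁ g := fun t ht hL =>
      bdT_of hB t ht (hL.trans (le_max_right _ _))
    refine ⟨?_, fun h hh τ hτ => ?_⟩
    · obtain ⟨ε, hε, m₀, hm₀, M₀, U, h3⟩ := hn T₁ g hg hE ((le_max_left _ _).trans hT) hB1 hR B
      refine ⟨ε, hε, m₀, hm₀, M₀, U, fun T f hf hfB hfε t ht x => ?_⟩
      obtain ⟨k1, k2, k3, k4⟩ := h3 T f hf hfB hfε t ht x
      exact ⟨k1, k2, k3, fun h4 => k4 ((le_max_left _ _).trans h4)⟩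
    · obtain ⟨hn0, hper, hv, hd0, hcd, hbd, hav⟩ := hh
      have hdec := Pool.Agent.H15.OB.two_decay hcd hn0 hd0 hbd
      have hF : g 0 = Pool.Agent.H85.HW.avX h := by
        funext x v
        exact (hav x v).symm
      obtain ⟨ε, hε, n₀, m₁, hm₁, M₀, U, h3⟩ := ho T₁ g hg hE ((le_max_right _ _).trans hT) hB2 hR h
        ⟨hcd, fun x y v i => (hper x y v i).1, fun x y v i => (hper x y v i).2, hdec⟩ hn0 hv hF B τ hτ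
      refine ⟨ε, hε, n₀, m₁, hm₁, M₀, U, fun n hn' => ?_⟩
      obtain ⟨m₀, hm₀, h4⟩ := h3 n hn'
      refine ⟨m₀, hm₀, fun T f hf hfB hfε t ht x => ?_⟩
      obtain ⟨k1, k2, k3, k4, k5⟩ := h4 T f hf hfB hfε t ht x
      exact ⟨k1, k2, k3, k4, fun h5 h6 => k5 h5 ((le_max_right _ _).trans h6)⟩

end Pool.Agent.Results.MP_c15324_an.LandauGas
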