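import Pool.Agent.H48.PR.UniG
import Pool.Agent.H48.PG.FinB
import Pool.Agent.H85.DG.LastD

/-!
# Plane symmetric data of the non-cutoff Boltzmann equation, `γ ≥ 0`, `2 s < 1`

`γ ≥ 1`, `γ + 2 s < 2`, unconditional: for every initial value which depends on `x` only through `ν · x`, without vacuum and with
Hoelder constants of some order `> 2 s` that grow at most polynomially in `v`, EVERY classical solution (no symmetry of it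
assumed) satisfies the four hydrodynamic bounds with constants that do not depend on `T`, and it is unique. The same bounds hold
for every plane symmetric solution, whatever its data; the constants are controlled by the total mass and the decay constants of
the data. `0 ≤ γ < 1`, `2 s < 1`: the same for small total mass (dilute gas), every profile.
-/

set_option autoImplicit false

open MeasureTheory Set Pool.Agent.H25.Kin Pool.Agent.H82.BK Pool.Agent.H93.CM Pool.Agent.H48.PL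

namespace Pool.Agent.Results.MP_c15324_an.PlaneData

/-- `F` depends on `x` only through `ν · x` -/
def Plane {d : ℕ} (ν : Vec d) (F : Vec d → Vec d → ℝ) : Prop :=
  ∀ x y v, ∑ i, ν i * x i = ∑ i, ν i * y i → F x v = F y v

/-- no vacuum; Hoelder continuous in `(x, v)` of some order in `(2 s, 1]`, with a constant which grows at most polynomially
in `v` -/
def Datum {d : ℕ} (s : ℝ) (F : Vec d → Vec d → ℝ) : Prop :=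
  (∀ x, 0 < ∫ v, F x v) ∧ ∃ α : ℝ, 2 * s < α ∧ α ≤ 1 ∧ ∃ (A : ℝ) (k : ℕ), ∀ x y v w : Vec d,
    |F x v - F y w| ≤ A * (1 + ‖v‖ + ‖w‖) ^ k * (‖x - y‖ + ‖v - w‖) ^ α

/-- every classical solution with the initial value `F₀` is plane symmetric, satisfies the hydrodynamic bounds and has rapid
decay with constants which do not depend on `T`, and is unique -/
private def AllSol {d : ℕ} (γ : ℝ) (b : ℝ → ℝ) (ν : Vec d) (F₀ : Vec d → Vec d → ℝ) : Prop :=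
  ∃ m₀ > 0, ∃ (M₀ : ℝ) (U : ℕ → ℝ), ∀ (T : ℝ) (f : ℝ → Vec d → Vec d → ℝ),
    IsBoltzmannSol γ b T f → f 0 = F₀ →
    (∀ t ∈ Ico 0 T, Plane ν (f t) ∧ ∀ x, HydroBounds m₀ M₀ M₀ M₀ (f t x) ∧
      ∀ (N : ℕ) (v : Vec d), (1 + ‖v‖) ^ N * f t x v ≤ U N) ∧
    ∀ (T' : ℝ) (g : ℝ → Vec d → Vec d → ℝ), IsBoltzmannSol γ b T' g → g 0 = F₀ →
      ∀ t ∈ Ico 0 (min T T'), f t = g t

/-- the plane symmetric solutions with the initial value `F₀` have upper bounds for mass, energy and entropy density and rapid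
decay with constants which do not depend on `T`; all hydrodynamic bounds if `F₀` has no vacuum -/
private def PlaneSol {d : ℕ} (γ : ℝ) (b : ℝ → ℝ) (ν : Vec d) (F₀ : Vec d → Vec d → ℝ) : Prop :=
  (∃ (U : ℕ → ℝ) (M₀ : ℝ), ∀ (T : ℝ) (f : ℝ → Vec d → Vec d → ℝ), IsBoltzmannSol γ b T f →
    (∀ t ∈ Ico 0 T, Plane ν (f t)) → f 0 = F₀ → ∀ t ∈ Ico 0 T, ∀ x,
      (∀ (N : ℕ) (v : Vec d), (1 + ‖v‖) ^ N * f t x v ≤ U N) ∧ (∫ v, f t x v ≤ M₀) ∧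
      (∫ v, f t x v * nsq v ≤ M₀) ∧ ∫ v, f t x v * Real.log (f t x v) ≤ M₀) ∧
  ((∀ x, 0 < ∫ v, F₀ x v) → ∃ m₀ > 0, ∃ M₀ : ℝ, ∀ (T : ℝ) (f : ℝ → Vec d → Vec d → ℝ),
    IsBoltzmannSol γ b T f → (∀ t ∈ Ico 0 T, Plane ν (f t)) → f 0 = F₀ →
      ∀ t ∈ Ico 0 T, ∀ x, HydroBounds m₀ M₀ M₀ M₀ (f t x))

private lemma pd_cv {d : ℕ} {s : ℝ} {ν : Vec d} (F : Vec d → Vec d → ℝ) (hP : Plane ν F) (hD : Datum s F) :
    Pool.Agent.H48.PR.PlaneData s ν F := by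
  obtain ⟨h0, α, ha, ha1, A, k, hA⟩ := hD
  exact ⟨fun x y v hxy => hP x y v hxy, h0, α, ha, ha1, A, k, hA⟩

/-- the common step: from the estimates for one initial value to `AllSol` and `PlaneSol` -/
private lemma pd_of {d : ℕ} (hd : 2 ≤ d) {s γ : ℝ} (hs : 0 < s) (h0 : 0 ≤ γ) (h1 : 2 * s < 1)
    (h2 : γ + 2 * s < 2) {b : ℝ → ℝ} (hb : IsKernel d s b) {ν : Vec d} (F₀ : Vec d → Vec d → ℝ)
    (E : (∃ (U : ℕ → ℝ) (M₀ : ℝ), ∀ (T : ℝ) (f : ℝ → Vec d → Vec d → ℝ), IsBoltzmannSol γ b T f →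
        (Pool.Agent.H25.PN.PlaneSym ν T f ∨ Pool.Agent.H48.PR.PlaneData s ν (f 0)) → f 0 = F₀ →
        ∀ t ∈ Ico 0 T, ∀ x,
          (∀ (N : ℕ) (v : Vec d), (1 + ‖v‖) ^ N * f t x v ≤ U N) ∧ (∫ v, f t x v ≤ M₀) ∧
          (∫ v, f t x v * nsq v ≤ M₀) ∧ ∫ v, f t x v * Real.log (f t x v) ≤ M₀) ∧
      ((∀ x, 0 < ∫ v, F₀ x v) → ∃ m₀ > 0, ∃ M₀ : ℝ, ∀ (T : ℝ) (f : ℝ → Vec d → Vec d → ℝ),
        IsBoltzmannSol γ b T f →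
        (Pool.Agent.H25.PN.PlaneSym ν T f ∨ Pool.Agent.H48.PR.PlaneData s ν (f 0)) → f 0 = F₀ →
          ∀ t ∈ Ico 0 T, ∀ x, HydroBounds m₀ M₀ M₀ M₀ (f t x))) :
    (Plane ν F₀ → Datum s F₀ → AllSol γ b ν F₀) ∧ PlaneSol γ b ν F₀ := by
  obtain ⟨C, Ca, cb, HL⟩ := Pool.Agent.H82.CM.exists_hypL hd hs (by linarith)
    (by linarith : 0 ≤ γ + 2 * s) h2.le hb
  refine ⟨fun hP hD => ?_, ?_, fun hpos => ?_⟩
  · obtain ⟨⟨U, M₁, h3⟩, h4⟩ := E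
    obtain ⟨m₀, hm₀, M₀, h5⟩ := h4 hD.1
    refine ⟨m₀, hm₀, M₀, U, fun T f hf hf0 => ⟨fun t ht => ?_, fun T' g hg hg0 t ht => ?_⟩⟩
    · have hc : Pool.Agent.H48.PR.PlaneData s ν (f 0) := by rw [hf0]; exact pd_cv _ hP hD
      have hs' := Pool.Agent.H48.PR.sym_of_hol HL h0 h1 hf hc
      exact ⟨fun x y v hxy => hs' t ht x y v hxy, fun x =>
        ⟨h5 T f hf (Or.inr hc) hf0 t ht x, (h3 T f hf (Or.inr hc) hf0 t ht x).1⟩⟩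
    · obtain ⟨hpos, α, ha, ha1, hA⟩ := hD
      subst hg0
      funext x v
      exact Pool.Agent.H48.PR.uniq_hol HL h0 h1 hf hg hpos ha ha1 hA
        (fun x v => by rw [hf0]) t ht x v
  · obtain ⟨⟨U, M₁, h3⟩, h4⟩ := E
    exact ⟨U, M₁, fun T f hf hP hf0 t ht x => h3 T f hf (Or.inl fun t ht x y v hxy =>
      hP t ht x y v hxy) hf0 t ht x⟩
  · obtain ⟨⟨U, M₁, h3⟩, h4⟩ := E
    obtain ⟨m₀, hm₀, M₀, h5⟩ := h4 hpos
    exact ⟨m₀, hm₀, M₀, fun T f hf hP hf0 t ht x => h5 T f hf (Or.inl fun t ht x y v hxy =>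
      hP t ht x y v hxy) hf0 t ht x⟩

private lemma pd_or {d : ℕ} {s : ℝ} {ν : Vec d} {T : ℝ} {f : ℝ → Vec d → Vec d → ℝ}
    (h : (∀ t ∈ Ico 0 T, Plane ν (f t)) ∨ (Plane ν (f 0) ∧ Datum s (f 0))) :
    Pool.Agent.H25.PN.PlaneSym ν T f ∨ Pool.Agent.H48.PR.PlaneData s ν (f 0) := by
  rcases h with hc | ⟨hP, hD⟩
  · exact Or.inl fun t ht x y v hxy => hc t ht x y v hxy
  · exact Or.inr (pd_cv _ hP hD)

theorem result {d : ℕ} (hd : 2 ≤ d) {s γ : ℝ} (hs : 0 < s) {b : ℝ → ℝ} (hb : IsKernel d s b)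
    {ν : Vec d} (hν : ν ≠ 0) :
    (1 ≤ γ → γ + 2 * s < 2 →
    -- (1) plane symmetric data, arbitrary classical solutions
    (∀ F₀ : Vec d → Vec d → ℝ, Plane ν F₀ → Datum s F₀ →
      ∃ m₀ > 0, ∃ (M₀ : ℝ) (U : ℕ → ℝ), ∀ (T : ℝ) (f : ℝ → Vec d → Vec d → ℝ),
        IsBoltzmannSol γ b T f → f 0 = F₀ →
        (∀ t ∈ Ico 0 T, Plane ν (f t) ∧ ∀ x, HydroBounds m₀ M₀ M₀ M₀ (f t x) ∧
          ∀ (N : ℕ) (v : Vec d), (1 + ‖v‖) ^ N * f t x v ≤ U N) ∧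
        ∀ (T' : ℝ) (g : ℝ → Vec d → Vec d → ℝ), IsBoltzmannSol γ b T' g → g 0 = F₀ →
          ∀ t ∈ Ico 0 (min T T'), f t = g t) ∧
    -- (2) plane symmetric solutions, arbitrary data
    (∀ F₀ : Vec d → Vec d → ℝ,
      (∃ (U : ℕ → ℝ) (M₀ : ℝ), ∀ (T : ℝ) (f : ℝ → Vec d → Vec d → ℝ), IsBoltzmannSol γ b T f →
        (∀ t ∈ Ico 0 T, Plane ν (f t)) → f 0 = F₀ → ∀ t ∈ Ico 0 T, ∀ x,
          (∀ (N : ℕ) (v : Vec d), (1 + ‖v‖) ^ N * f t x v ≤ U N) ∧ (∫ v, f t x v ≤ M₀) ∧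
          (∫ v, f t x v * nsq v ≤ M₀) ∧ ∫ v, f t x v * Real.log (f t x v) ≤ M₀) ∧
      ((∀ x, 0 < ∫ v, F₀ x v) → ∃ m₀ > 0, ∃ M₀ : ℝ, ∀ (T : ℝ) (f : ℝ → Vec d → Vec d → ℝ),
        IsBoltzmannSol γ b T f → (∀ t ∈ Ico 0 T, Plane ν (f t)) → f 0 = F₀ →
          ∀ t ∈ Ico 0 T, ∀ x, HydroBounds m₀ M₀ M₀ M₀ (f t x))) ∧
    -- (3) the constants depend only on the total mass and the decay constants of the initial value
    ∀ (B : ℕ → ℝ), ∀ m > 0, ∃ U : ℕ → ℝ, ∀ (T : ℝ) (f : ℝ → Vec d → Vec d → ℝ),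
      IsBoltzmannSol γ b T f → ((∀ t ∈ Ico 0 T, Plane ν (f t)) ∨ (Plane ν (f 0) ∧ Datum s (f 0))) →
      (∀ (N : ℕ) (x v : Vec d), (1 + ‖v‖) ^ N * f 0 x v ≤ B N) →
      m ≤ ∫ x in Icc (0 : Vec d) 1, ∫ v, f 0 x v →
      ∀ t ∈ Ico 0 T, ∀ (N : ℕ) (x v : Vec d), (1 + ‖v‖) ^ N * f t x v ≤ U N) ∧
    -- (4) `0 ≤ γ < 1`: (1) and (2) for plane symmetric data of small total mass, and the decay of `f`
    (0 ≤ γ → γ < 1 → 2 * s < 1 → ∀ p : ℕ, (d : ℝ) + γ + 4 ≤ 2 * p → ∀ α : ℝ, ∃ M > 0,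
      (∀ F₀ : Vec d → Vec d → ℝ, (∫ x in Icc (0 : Vec d) 1, ∫ v, F₀ x v) ≤ M →
        (∀ x v, F₀ x v * (1 + nsq v) ^ p ≤ α * ∫ x in Icc (0 : Vec d) 1, ∫ v, F₀ x v) →
        (Plane ν F₀ → Datum s F₀ →
          ∃ m₀ > 0, ∃ (M₀ : ℝ) (U : ℕ → ℝ), ∀ (T : ℝ) (f : ℝ → Vec d → Vec d → ℝ),
            IsBoltzmannSol γ b T f → f 0 = F₀ →
            (∀ t ∈ Ico 0 T, Plane ν (f t) ∧ ∀ x, HydroBounds m₀ M₀ M₀ M₀ (f t x) ∧
              ∀ (N : ℕ) (v : Vec d), (1 + ‖v‖) ^ N * f t x v ≤ U N) ∧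
            ∀ (T' : ℝ) (g : ℝ → Vec d → Vec d → ℝ), IsBoltzmannSol γ b T' g → g 0 = F₀ →
              ∀ t ∈ Ico 0 (min T T'), f t = g t) ∧
        (∃ (U : ℕ → ℝ) (M₀ : ℝ), ∀ (T : ℝ) (f : ℝ → Vec d → Vec d → ℝ), IsBoltzmannSol γ b T f →
          (∀ t ∈ Ico 0 T, Plane ν (f t)) → f 0 = F₀ → ∀ t ∈ Ico 0 T, ∀ x,
            (∀ (N : ℕ) (v : Vec d), (1 + ‖v‖) ^ N * f t x v ≤ U N) ∧ (∫ v, f t x v ≤ M₀) ∧
            (∫ v, f t x v * nsq v ≤ M₀) ∧ ∫ v, f t x v * Real.log (f t x v) ≤ M₀) ∧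
        ((∀ x, 0 < ∫ v, F₀ x v) → ∃ m₀ > 0, ∃ M₀ : ℝ, ∀ (T : ℝ) (f : ℝ → Vec d → Vec d → ℝ),
          IsBoltzmannSol γ b T f → (∀ t ∈ Ico 0 T, Plane ν (f t)) → f 0 = F₀ →
            ∀ t ∈ Ico 0 T, ∀ x, HydroBounds m₀ M₀ M₀ M₀ (f t x))) ∧
      ∀ q : ℕ, p ≤ q → ∃ K : ℝ, 0 ≤ K ∧ ∀ (T : ℝ) (f : ℝ → Vec d → Vec d → ℝ), IsBoltzmannSol γ b T f →
        ((∀ t ∈ Ico 0 T, Plane ν (f t)) ∨ (Plane ν (f 0) ∧ Datum s (f 0))) →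
        (∫ x in Icc (0 : Vec d) 1, ∫ v, f 0 x v) ≤ M →
        (∀ x v, f 0 x v * (1 + nsq v) ^ p ≤ α * ∫ x in Icc (0 : Vec d) 1, ∫ v, f 0 x v) →
        ∀ A : ℝ, (∀ x v, f 0 x v * (1 + nsq v) ^ q ≤ A) →
        ∀ t ∈ Ico 0 T, ∀ x v, f t x v * (1 + nsq v) ^ q ≤
          K * (A + ∫ x in Icc (0 : Vec d) 1, ∫ v, f 0 x v)) := by
  refine ⟨fun h1 h2 => ?_, fun h0 h1 h2 p hp α => ?_⟩
  · have E := Pool.Agent.H48.PG.est_holB hd hs h1 h2 hb hν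
    refine ⟨fun F₀ => (pd_of hd hs (by linarith) (by linarith) h2 hb F₀ (E.1 F₀)).1,
      fun F₀ => (pd_of hd hs (by linarith) (by linarith) h2 hb F₀ (E.1 F₀)).2, fun B m hm => ?_⟩
    obtain ⟨U, hU⟩ := E.2 B m hm
    exact ⟨U, fun T f hf hc => hU T f hf (pd_or hc)⟩
  · obtain ⟨M, hM, E, hK⟩ := Pool.Agent.H85.DG.dil_all hd hs h0 h1 h2 hb hν p hp α
    refine ⟨M, hM, fun F₀ hm hα => pd_of hd hs h0 h2 (by linarith) hb F₀ (E F₀ hm hα),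
      fun q hq => ?_⟩
    obtain ⟨K, hK0, hK⟩ := hK q hq
    exact ⟨K, hK0, fun T f hf hc => hK T f hf (pd_or hc)⟩

end Pool.Agent.Results.MP_c15324_an.PlaneData
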